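import Pool.Agent.H792.W2Star

/-! The spectrum of the uniform exponent of approximation by real algebraic numbers of degree at
most two is the whole interval `[1, 2]` at least: every value is attained. -/

set_option autoImplicit false
open Polynomial

namespace Pool.Agent.Results.MP_03368a_nt.FullSpectrum

/-- naive height of an integer polynomial: the maximum of the absolute values of its
coefficients -/
def ht (P : ℤ[X]) : ℕ := P.support.sup fun i => (P.coeff i).natAbs

/-- `P` is the minimal polynomial over `ℤ` of the real number `α`: irreducible, primitive, with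
positive leading coefficient, and vanishing at `α` -/
def IsMinPoly (P : ℤ[X]) (α : ℝ) : Prop :=
  Irreducible P ∧ P.IsPrimitive ∧ 0 < P.leadingCoeff ∧ aeval α P = 0

/-- for every large `H` there is a real algebraic number `α ≠ ξ` of degree at most `2` and height
at most `H` with `|ξ - α| ≤ H(α)⁻¹ H ^ (-w)` -/
def Admissible (ξ w : ℝ) : Prop :=
  ∃ H₀ : ℝ, ∀ H : ℝ, H₀ ≤ H → ∃ α : ℝ, ∃ P : ℤ[X], IsMinPoly P α ∧ P.natDegree ≤ 2 ∧
    (ht P : ℝ) ≤ H ∧ 0 < |ξ - α| ∧ |ξ - α| ≤ (ht P : ℝ)⁻¹ * H ^ (-w)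

/-- `ξ` is algebraic of degree at most `2` -/
def AlgTwo (ξ : ℝ) : Prop := ∃ P : ℤ[X], P ≠ 0 ∧ P.natDegree ≤ 2 ∧ aeval ξ P = 0

theorem ht_eq {P : ℤ[X]} {h : ℤ} (h1 : ∀ i : ℕ, |P.coeff i| ≤ h) (h2 : ∃ i : ℕ, |P.coeff i| = h)
    (hP : P ≠ 0) : ((ht P : ℕ) : ℤ) = h := by
  obtain ⟨i, hi⟩ := h2
  have h0 : 0 ≤ h := (abs_nonneg _).trans (h1 i)
  apply le_antisymm
  · have : ht P ≤ h.toNat := by
      unfold ht
      apply Finset.sup_le
      intro j _
      have := h1 j
      rw [Int.abs_eq_natAbs] at this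
      omega
    omega
  · rw [← hi]
    by_cases hc : P.coeff i = 0
    · rw [hc]; simp
    · have : (P.coeff i).natAbs ≤ ht P :=
        Finset.le_sup (f := fun i => (P.coeff i).natAbs) (mem_support_iff.2 hc)
      rw [Int.abs_eq_natAbs]
      exact_mod_cast this

theorem ht_spec {P : ℤ[X]} (hP : P ≠ 0) :
    (∀ i : ℕ, |P.coeff i| ≤ ((ht P : ℕ) : ℤ)) ∧ (∃ i : ℕ, |P.coeff i| = ((ht P : ℕ) : ℤ)) := by
  constructor
  · intro i
    by_cases hc : P.coeff i = 0
    · rw [hc]; simp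
    · have : (P.coeff i).natAbs ≤ ht P :=
        Finset.le_sup (f := fun i => (P.coeff i).natAbs) (mem_support_iff.2 hc)
      rw [Int.abs_eq_natAbs]
      exact_mod_cast this
  · have hne : P.support.Nonempty := nonempty_support_iff.2 hP
    obtain ⟨i, _, hi⟩ := Finset.exists_mem_eq_sup _ hne (fun i => (P.coeff i).natAbs)
    refine ⟨i, ?_⟩
    rw [Int.abs_eq_natAbs]
    unfold ht
    rw [hi]

theorem ht_neg (P : ℤ[X]) : ht (-P) = ht P := by
  unfold ht
  simp

/-- The spectrum of the uniform exponent contains `[1, 2]`: for every `t` in `[1, 2]` there is a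
real number `ξ`, not algebraic of degree at most `2`, such that `t` is the least upper bound of
the admissible exponents of `ξ`. -/
theorem result : ∀ t : ℝ, 1 ≤ t → t ≤ 2 →
    ∃ ξ : ℝ, ¬ AlgTwo ξ ∧ IsLUB {w : ℝ | Admissible ξ w} t := by
  intro t ht1 ht2
  obtain ⟨ξ, hξ, hlow, hup⟩ := Pool.Agent.H792.W2Star.main t ht1 ht2
  have hadm : ∀ w : ℝ, w < t → Admissible ξ w := by
    intro w hw
    obtain ⟨H₀, hH₀⟩ := hlow w hw
    refine ⟨H₀, fun H hH => ?_⟩
    obtain ⟨P, α, h, hirr, hdeg, hroot, hc1, hc2, hhH, hpos, hle⟩ := hH₀ H hH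
    have hP0 : P ≠ 0 := hirr.ne_zero
    have hnd : P.natDegree ≠ 0 := by
      intro h0
      rw [eq_C_of_natDegree_eq_zero h0] at hroot
      rw [aeval_C] at hroot
      have hc0 : P.coeff 0 = 0 := by
        have : ((P.coeff 0 : ℤ) : ℝ) = 0 := by simpa using hroot
        exact_mod_cast this
      apply hP0
      rw [eq_C_of_natDegree_eq_zero h0, hc0, C_0]
    have hht : (ht P : ℝ) = (h : ℝ) := by exact_mod_cast ht_eq hc1 hc2 hP0
    rcases lt_or_gt_of_ne (leadingCoeff_ne_zero.2 hP0) with hl | hl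
    · have hirr' : Irreducible (-P) := (Associated.neg_left (Associated.refl P)).irreducible_iff.2 hirr
      refine ⟨α, -P, ⟨hirr', hirr'.isPrimitive (by rwa [natDegree_neg]), ?_, ?_⟩, ?_, ?_, hpos, ?_⟩
      · rw [leadingCoeff_neg]; omega
      · rw [map_neg, hroot, neg_zero]
      · rwa [natDegree_neg]
      · rw [ht_neg, hht]; exact hhH
      · rw [ht_neg, hht]; exact hle
    · exact ⟨α, P, ⟨hirr, hirr.isPrimitive hnd, hl, hroot⟩, hdeg, by rw [hht]; exact hhH, hpos,
        by rw [hht]; exact hle⟩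
  refine ⟨ξ, ?_, ?_, ?_⟩
  · rintro ⟨P, hP0, hdeg, hroot⟩
    exact hξ P hP0 hdeg hroot
  · intro w hw
    by_contra hlt
    push Not at hlt
    apply hup w hlt
    obtain ⟨H₀, hH₀⟩ := hw
    refine ⟨H₀, fun H hH => ?_⟩
    obtain ⟨α, P, ⟨hirr, _, _, hroot⟩, hdeg, hhH, hpos, hle⟩ := hH₀ H hH
    obtain ⟨hs1, hs2⟩ := ht_spec hirr.ne_zero
    exact ⟨P, α, ((ht P : ℕ) : ℤ), hirr, hdeg, hroot, hs1, hs2, by exact_mod_cast hhH, hpos,
      by exact_mod_cast hle⟩
  · intro u hu
    by_contra hlt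
    push Not at hlt
    have := hu (hadm ((u + t) / 2) (by linarith))
    linarith

end Pool.Agent.Results.MP_03368a_nt.FullSpectrum
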